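import Mathlib
import Pool.Agent.V11256.CG.Main

/-!
# The chromatic number of Cayley graphs of the powers of a fixed group

For every finite group `G` with at least two elements, computing the chromatic number is NP-hard on
the class of the Cayley graphs `X(G^n, C)`, `n ≥ 1`.

The reduction is from 3SAT. The clauses are indexed by the elements of `G^r`; a literal of the
clause `q` is a point `(q, y)` of `G^r × G^s`, where the points `y` lie in the `s`-th power of a
subgroup of prime order `p` and any six of them are linearly independent over `Z_p` (the powers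
`f, f^2, ..., f^5` of polynomials over `Z_p`). The connection set is the complement of the set of
the differences of compatible literals: a satisfying assignment gives a clique that meets every
coset of `G^s`, hence tiles the group.
-/

namespace Pool.Agent.Results.MP_ba7db8_lc.CayleyChromatic

open Pool.Agent.NPC Pool.Agent.V11256.ST Pool.Agent.V11256

/-- The Cayley graph `X(H, C)`: the vertex set is `H`, and `h ~ h'` when `h⁻¹ h' ∈ C`. -/
def Cayley {H : Type*} [Group H] (C : Set H) (h1 : (1 : H) ∉ C) (h2 : ∀ c ∈ C, c⁻¹ ∈ C) :
    SimpleGraph H where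
  Adj h h' := h⁻¹ * h' ∈ C
  symm := ⟨fun h h' hh => by have := h2 _ hh; simpa using this⟩
  loopless := ⟨fun h hh => h1 (by simpa using hh)⟩

/-- The graph `gr x`, given explicitly by the list `x.1` of its vertices and the list `x.2` of its
edges, belongs to the class `C_G`: it is isomorphic to a Cayley graph `X(G^n, C)`, `n ≥ 1`. -/
def InClass (G : Type) [Group G] (x : List ℕ × List (ℕ × ℕ)) : Prop :=
  ∃ n : ℕ, 1 ≤ n ∧ ∃ (C : Set (Fin n → G)) (h1 : (1 : Fin n → G) ∉ C) (h2 : ∀ c ∈ C, c⁻¹ ∈ C),
    Nonempty (Cayley C h1 h2 ≃g gr x)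

/-- **Main theorem.** Let `G` be a finite group with at least two elements. Deciding whether
`χ(X) ≤ k` for graphs `X` of the class `C_G` is NP-hard: both as a language, and in the promise
form, where every instance produced by the reduction is in the class `C_G`. -/
theorem result (G : Type) [Group G] [Finite G] [Nontrivial G] :
    NPHardP (fun x : (List ℕ × List (ℕ × ℕ)) × ℕ =>
      InClass G x.1 ∧ (gr x.1).chromaticNumber ≤ x.2) ∧
    ∀ L : Set (List Bool), InNP L → ∃ f : List Bool → (List ℕ × List (ℕ × ℕ)) × ℕ,
      PolyTime (fun w => bits (f w)) ∧ (∀ w, InClass G (f w).1) ∧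
      ∀ w, w ∈ L ↔ (gr (f w).1).chromaticNumber ≤ (f w).2 := by
  have hard := CG.hardPr_cay G
  refine ⟨npHard_of_hardPr hard (fun x h => ⟨fun g => ⟨h, g⟩, fun g => g.2⟩), fun L hL => ?_⟩
  obtain ⟨f, hf, hpr, hfL⟩ := hard L hL
  exact ⟨f, PC.toPolyTime hf, hpr, hfL⟩

end Pool.Agent.Results.MP_ba7db8_lc.CayleyChromatic
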